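import Pool.Agent.U582.AB.Spec
import Pool.Agent.W40.RG.SEL
import Pool.Agent.W585.RG.DOM

/-!
# Project AB (helper582), package CUT: curves through a point avoiding countably many hypersurfaces

The two parts are in the starting library: `Pool.Agent.W602.RG.S_SEL` (the prime ideal of the curve) and
`Pool.Agent.W602.RG.S_DOM` (a place over a point of an affine curve).
-/

set_option autoImplicit false

open FF

namespace Pool.Agent.U784.AB

theorem t_CUT : Pool.Agent.U582.AB.S_CUT := by
  intro k _ _ _ _ A _ _ _ _ y a ha ht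
  obtain ⟨P, hP, hPy, hPa, hFF⟩ := Pool.Agent.W40.RG.SEL.main k A y a ha ht
  let yB : (A ⧸ P) →ₐ[k] k := Ideal.Quotient.liftₐ P y hPy
  have hyB : ∀ f : A, yB (Ideal.Quotient.mk P f) = y f := fun f => rfl
  obtain ⟨hdom, -, -⟩ := Pool.Agent.W585.RG.DOM.main k (A ⧸ P) hFF
  obtain ⟨c, hc⟩ := hdom yB
  refine ⟨FractionRing (A ⧸ P), inferInstance, inferInstance, hFF,
    (IsScalarTower.toAlgHom k (A ⧸ P) (FractionRing (A ⧸ P))).comp (Ideal.Quotient.mkₐ k P), c,
    ?_, ?_⟩
  · intro i h
    apply hPa i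
    have h1 : algebraMap (A ⧸ P) (FractionRing (A ⧸ P)) (Ideal.Quotient.mk P (a i)) =
        algebraMap (A ⧸ P) (FractionRing (A ⧸ P)) 0 := by
      rw [map_zero]
      exact h
    exact Ideal.Quotient.eq_zero_iff_mem.1
      (IsFractionRing.injective (A ⧸ P) (FractionRing (A ⧸ P)) h1)
  · intro f
    have e1 : algebraMap (A ⧸ P) (FractionRing (A ⧸ P))
        (Ideal.Quotient.mk P f - algebraMap k (A ⧸ P) (y f)) =
        algebraMap (A ⧸ P) (FractionRing (A ⧸ P)) (Ideal.Quotient.mk P f) -
          algebraMap k (FractionRing (A ⧸ P)) (y f) := by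
      rw [map_sub, ← IsScalarTower.algebraMap_apply k (A ⧸ P) (FractionRing (A ⧸ P))]
    have h1 := (hc (Ideal.Quotient.mk P f - algebraMap k (A ⧸ P) (y f))).2 (by
      rw [map_sub, hyB, yB.commutes]
      simp)
    rw [e1] at h1
    rcases h1 with h1 | h1
    · left
      rw [h1, map_zero] at e1
      exact sub_eq_zero.1 e1.symm
    · right
      exact h1

end Pool.Agent.U784.AB
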